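import Pool.Agent.BEW.StmtsD

/-!
# BEW, row ROT: oscillators with a small force
-/

set_option autoImplicit false

namespace Pool.Agent.BEW.H8

open Set Filter Topology MeasureTheory
open scoped InnerProductSpace ENNReal
open Pool.Agent.BE01 Pool.Agent.BEL Pool.Agent.BEG Pool.Agent.BEH Pool.Agent.BER Pool.Agent.BEW

/-- row ROT -/
theorem rot : RotStmt := by
  intro S om x y f t0 T g hg hx hy hf s hs
  set X : ℕ → ℝ → ℝ := fun k τ =>
    Real.cos (om k * τ) * x k (t0 + τ) - Real.sin (om k * τ) * y k (t0 + τ) with hX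
  set Y : ℕ → ℝ → ℝ := fun k τ =>
    Real.sin (om k * τ) * x k (t0 + τ) + Real.cos (om k * τ) * y k (t0 + τ) with hY
  have hX0 : ∀ k, X k 0 = x k t0 := fun k => by simp [hX]
  have hY0 : ∀ k, Y k 0 = y k t0 := fun k => by simp [hY]
  have hlin : ∀ k (τ : ℝ), HasDerivAt (fun τ => om k * τ) (om k) τ := fun k τ => by
    simpa using (hasDerivAt_id τ).const_mul (om k)
  have hxd : ∀ k ∈ S, ∀ τ, HasDerivAt (fun τ => x k (t0 + τ)) (om k * y k (t0 + τ)) τ :=
    fun k hk τ => by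
      have h1 := HasDerivAt.scomp τ (hx k hk (t0 + τ)) ((hasDerivAt_id τ).const_add t0)
      rw [one_smul] at h1
      exact h1
  have hyd : ∀ k ∈ S, ∀ τ, HasDerivAt (fun τ => y k (t0 + τ))
      (-(om k * x k (t0 + τ)) - f k (t0 + τ)) τ := fun k hk τ => by
    have h1 := HasDerivAt.scomp τ (hy k hk (t0 + τ)) ((hasDerivAt_id τ).const_add t0)
    rw [one_smul] at h1
    exact h1
  have hXd : ∀ k ∈ S, ∀ τ, HasDerivAt (X k) (Real.sin (om k * τ) * f k (t0 + τ)) τ := by
    intro k hk τ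
    have h1 := ((hlin k τ).cos.mul (hxd k hk τ)).sub ((hlin k τ).sin.mul (hyd k hk τ))
    have e : Real.sin (om k * τ) * f k (t0 + τ) =
        -Real.sin (om k * τ) * om k * x k (t0 + τ) + Real.cos (om k * τ) * (om k * y k (t0 + τ)) -
          (Real.cos (om k * τ) * om k * y k (t0 + τ) +
            Real.sin (om k * τ) * (-(om k * x k (t0 + τ)) - f k (t0 + τ))) := by ring
    rw [e]
    exact h1
  have hYd : ∀ k ∈ S, ∀ τ, HasDerivAt (Y k) (-(Real.cos (om k * τ) * f k (t0 + τ))) τ := by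
    intro k hk τ
    have h1 := ((hlin k τ).sin.mul (hxd k hk τ)).add ((hlin k τ).cos.mul (hyd k hk τ))
    have e : -(Real.cos (om k * τ) * f k (t0 + τ)) =
        Real.cos (om k * τ) * om k * x k (t0 + τ) + Real.sin (om k * τ) * (om k * y k (t0 + τ)) +
          (-Real.sin (om k * τ) * om k * y k (t0 + τ) +
            Real.cos (om k * τ) * (-(om k * x k (t0 + τ)) - f k (t0 + τ))) := by ring
    rw [e]
    exact h1
  have hrot : ∑ k ∈ S, ((y k (t0 + s) - (y k t0 * Real.cos (om k * s) -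
      x k t0 * Real.sin (om k * s))) ^ 2 +
      (x k (t0 + s) - (x k t0 * Real.cos (om k * s) + y k t0 * Real.sin (om k * s))) ^ 2) =
      ∑ k ∈ S, ((X k s - x k t0) ^ 2 + (Y k s - y k t0) ^ 2) := by
    refine Finset.sum_congr rfl fun k _ => ?_
    have h := Real.sin_sq_add_cos_sq (om k * s)
    simp only [hX, hY]
    linear_combination (-(x k (t0 + s) ^ 2 + y k (t0 + s) ^ 2 - x k t0 ^ 2 - y k t0 ^ 2)) * h
  rw [hrot]
  set D : ℝ := ∑ k ∈ S, ((X k s - x k t0) ^ 2 + (Y k s - y k t0) ^ 2) with hD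
  have hD0 : 0 ≤ D := Finset.sum_nonneg fun k _ => by positivity
  set φ : ℝ → ℝ := fun τ => ∑ k ∈ S, ((X k s - x k t0) * X k τ + (Y k s - y k t0) * Y k τ) with hφ
  have hφd : ∀ τ, HasDerivAt φ (∑ k ∈ S, (f k (t0 + τ) *
      ((X k s - x k t0) * Real.sin (om k * τ) - (Y k s - y k t0) * Real.cos (om k * τ)))) τ := by
    intro τ
    have h1 := HasDerivAt.fun_sum (u := S) (A := fun k τ =>
        (X k s - x k t0) * X k τ + (Y k s - y k t0) * Y k τ)
      (A' := fun k => (X k s - x k t0) * (Real.sin (om k * τ) * f k (t0 + τ)) +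
        (Y k s - y k t0) * (-(Real.cos (om k * τ) * f k (t0 + τ)))) (x := τ)
      fun k hk => ((hXd k hk τ).const_mul _).add ((hYd k hk τ).const_mul _)
    have e : ∑ k ∈ S, (f k (t0 + τ) *
        ((X k s - x k t0) * Real.sin (om k * τ) - (Y k s - y k t0) * Real.cos (om k * τ))) =
        ∑ k ∈ S, ((X k s - x k t0) * (Real.sin (om k * τ) * f k (t0 + τ)) +
        (Y k s - y k t0) * (-(Real.cos (om k * τ) * f k (t0 + τ)))) :=
      Finset.sum_congr rfl fun k _ => by ring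
    rw [e]
    exact h1
  have hbd : ∀ τ ∈ Icc 0 s, ‖∑ k ∈ S, (f k (t0 + τ) *
      ((X k s - x k t0) * Real.sin (om k * τ) - (Y k s - y k t0) * Real.cos (om k * τ)))‖ ≤
      g * Real.sqrt D := by
    intro τ hτ
    rw [Real.norm_eq_abs]
    apply abs_le_of_sq_le_sq _ (by positivity)
    rw [mul_pow, Real.sq_sqrt hD0]
    refine (Finset.sum_mul_sq_le_sq_mul_sq _ _ _).trans ?_
    refine mul_le_mul (hf τ ⟨hτ.1, hτ.2.trans hs.2⟩) ?_ (Finset.sum_nonneg fun k _ => sq_nonneg _)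
      (sq_nonneg g)
    refine Finset.sum_le_sum fun k _ => ?_
    have h := Real.sin_sq_add_cos_sq (om k * τ)
    nlinarith [sq_nonneg ((X k s - x k t0) * Real.cos (om k * τ) +
      (Y k s - y k t0) * Real.sin (om k * τ)), h]
  have hmv := (convex_Icc (0 : ℝ) s).norm_image_sub_le_of_norm_hasDerivWithin_le
    (fun τ _ => (hφd τ).hasDerivWithinAt) hbd (left_mem_Icc.2 hs.1) (right_mem_Icc.2 hs.1)
  have hdiff : φ s - φ 0 = D := by
    simp only [hφ, hD, hX0, hY0]
    rw [← Finset.sum_sub_distrib]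
    refine Finset.sum_congr rfl fun k _ => ?_
    ring
  rw [hdiff, Real.norm_eq_abs, Real.norm_eq_abs, sub_zero, abs_of_nonneg hD0,
    abs_of_nonneg hs.1] at hmv
  have hsq : Real.sqrt D * Real.sqrt D = D := Real.mul_self_sqrt hD0
  have hsq0 := Real.sqrt_nonneg D
  rcases hsq0.lt_or_eq with h | h
  · have h1 : Real.sqrt D * Real.sqrt D ≤ (g * s) * Real.sqrt D := by
      rw [hsq]
      linarith
    have h2 : Real.sqrt D ≤ g * s := le_of_mul_le_mul_right h1 h
    calc D = Real.sqrt D ^ 2 := by rw [_root_.sq, hsq]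
      _ ≤ (g * s) ^ 2 := pow_le_pow_left₀ hsq0 h2 2
  · rw [← h, mul_zero] at hsq
    rw [← hsq]
    positivity

end Pool.Agent.BEW.H8
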